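import Pool.Agent.Helper983.WC.Main

/-!
Characterization of the Banach spaces in which the weak Chebyshev greedy algorithm converges
for every dictionary and every element.

For every real Banach space `X` and every weakness parameter `0 < t ≤ 1`: every realization of
WCGA(t), for every dictionary and every `f`, has residuals tending to `0`, if and only if the
norm of `X` is smooth (every nonzero vector has only one norming functional) and the dual norm
has the sequential weak-star Kadec-Klee property (on the dual unit sphere, weak-star convergent
sequences converge in norm).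

The definitions `IsDictionary`, `IsNorming`, `IsBestApprox`, `IsRun`, `Smooth`, `DualKK` are in
`Pool.Agent.Helper983.WC.Basic`.
-/

namespace Pool.Agent.Results.MP_dc5a1d_an.WCGAChar

open Filter Topology Pool.Agent.Helper983.WC

theorem result (X : Type*) [NormedAddCommGroup X] [NormedSpace ℝ X] [CompleteSpace X]
    (t : ℝ) (ht0 : 0 < t) (ht1 : t ≤ 1) :
    (∀ D : Set X, IsDictionary D →
      ∀ (f : X) (r : ℕ → X) (F : ℕ → X →L[ℝ] ℝ) (φ : ℕ → X),
        IsRun t D f r F φ → Tendsto (fun m => ‖r m‖) atTop (𝓝 0)) ↔
    (Smooth X ∧ DualKK X) :=
  main t ht0 ht1

end Pool.Agent.Results.MP_dc5a1d_an.WCGAChar
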